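import Mathlib
import Pool.Agent.N345.Fano.Gap

set_option autoImplicit false

/-!
# Planes with few quadrangles whose diagonal points are not collinear have order a power of two

Let `n` be the order of a finite projective plane (a symmetric design with `lam = 1`). If the plane
has fewer than `n ^ 7 / 8` ordered quadrangles whose diagonal points are not collinear, or if, for
some three different collinear points `a`, `b`, `d`, fewer than `n ^ 2 / 8` of these quadrangles
have `a` and `b` as diagonal points and `d` on the diagonal through the first and third vertex, then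
`n` is a power of two.
-/

namespace Pool.Agent.Results.MP_3038d1_co.FanoGap

open Configuration Configuration.ProjectivePlane

/-- The points `x`, `y`, `z` are on a common line. -/
def OnLine {P : Type} (L : Type) [Membership P L] (x y z : P) : Prop :=
  ∃ l : L, x ∈ l ∧ y ∈ l ∧ z ∈ l

/-- `p 0, p 1, p 2, p 3` is an (ordered) quadrangle: no three of the points are on a line. -/
def IsQuadrangle {P : Type} (L : Type) [Membership P L] (p : Fin 4 → P) : Prop :=
  ∀ i j k : Fin 4, i ≠ j → i ≠ k → j ≠ k → ¬ OnLine L (p i) (p j) (p k)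

/-- The three diagonal points `x = p₀p₁ ∩ p₂p₃`, `y = p₀p₂ ∩ p₁p₃`, `z = p₀p₃ ∩ p₁p₂` are on a
line. -/
def HasCollinearDiagonals {P : Type} (L : Type) [Membership P L] (p : Fin 4 → P) : Prop :=
  ∃ x y z : P, OnLine L x (p 0) (p 1) ∧ OnLine L x (p 2) (p 3) ∧ OnLine L y (p 0) (p 2) ∧
    OnLine L y (p 1) (p 3) ∧ OnLine L z (p 0) (p 3) ∧ OnLine L z (p 1) (p 2) ∧ OnLine L x y z

/-- Let `n` be the order of a finite projective plane, and let `n` be not a power of two. Then there
are at least `n ^ 7 / 8` quadrangles whose diagonal points are not collinear. Moreover, for every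
three different collinear points `a`, `b`, `d`, at least `n ^ 2 / 8` of these quadrangles have the
diagonal points `a = p₀p₁ ∩ p₂p₃` and `b = p₀p₃ ∩ p₁p₂` and have `d` on the line `p₀p₂`. -/
theorem result (P L : Type) [Membership P L] [Fintype P] [Fintype L] [ProjectivePlane P L]
    (n : ℕ) (hn : order P L = n) (hpow : ∀ k : ℕ, n ≠ 2 ^ k) :
    n ^ 7 ≤ 8 * Nat.card {p : Fin 4 → P // IsQuadrangle L p ∧ ¬ HasCollinearDiagonals L p} ∧
    ∀ a b d : P, a ≠ b → a ≠ d → b ≠ d → OnLine L a b d →
      n ^ 2 ≤ 8 * Nat.card {p : Fin 4 → P // IsQuadrangle L p ∧ ¬ HasCollinearDiagonals L p ∧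
        OnLine L a (p 0) (p 1) ∧ OnLine L a (p 2) (p 3) ∧ OnLine L b (p 0) (p 3) ∧
        OnLine L b (p 1) (p 2) ∧ OnLine L d (p 0) (p 2)} := by
  classical
  subst hn
  have hp : ¬ ∃ k, order P L = 2 ^ k := fun ⟨k, hk⟩ => hpow k hk
  constructor
  · refine (Pool.Agent.N345.Fano.global_gap L hp).trans (Nat.mul_le_mul_left 8 ?_)
    rw [Nat.card_eq_fintype_card, Fintype.card_subtype]
    refine Finset.card_le_card fun p hp => ?_
    simp only [Pool.Agent.N345.Fano.allNF, Finset.mem_filter, Finset.mem_univ, true_and] at hp ⊢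
    exact hp
  · rintro a b d hab had hbd ⟨m, ha, hb, hd⟩
    refine (Pool.Agent.N345.Fano.local_gap ha hb hd hab had hbd hp).trans
      (Nat.mul_le_mul_left 8 ?_)
    rw [Nat.card_eq_fintype_card, Fintype.card_subtype]
    refine Finset.card_le_card fun p hp => ?_
    simp only [Pool.Agent.N345.Fano.locNF, Finset.mem_filter, Finset.mem_univ, true_and] at hp ⊢
    obtain ⟨h1, h2, h3, h4, h5, h6, h7⟩ := hp
    exact ⟨h1, h7, h2, h3, h4, h5, h6⟩

end Pool.Agent.Results.MP_3038d1_co.FanoGap
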