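import Mathlib
import Pool.Agent.N337.MJ.Tr
import Pool.Agent.N337.MJ.Kan


set_option autoImplicit false

/-!
# A robust Dembowski-Wagner theorem, sharp in dimension three

Let `D` be a symmetric `(v, k, lambda)`-design with `lambda ≥ 2` and `k = n * lambda + 1`, `n ≥ 2`
(for instance with the parameters of a projective space of dimension `≥ 3`, or a Hadamard design).
The line through two points is the intersection of all blocks containing them; it has at most
`n + 1` points and is short if it has fewer. Dembowski and Wagner: if no line is short, then `D` is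
a projective space.
-/

namespace Pool.Agent.Results.MP_3038d1_co.RobustDembowskiWagner

open Finset

/-- The sets `B i` (`i : Fin v`) are the blocks of a symmetric `(v, k, l)`-design on `Fin v`. -/
structure IsSymmetricDesign (v k l : ℕ) (B : Fin v → Finset (Fin v)) : Prop where
  size : ∀ i, (B i).card = k
  pair : ∀ x y : Fin v, x ≠ y → (univ.filter fun i => x ∈ B i ∧ y ∈ B i).card = l

/-- The line through `x` and `y`: the intersection of all blocks containing `x` and `y`. -/
def line {v : ℕ} (B : Fin v → Finset (Fin v)) (x y : Fin v) : Finset (Fin v) :=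
  univ.filter fun z => ∀ i, x ∈ B i → y ∈ B i → z ∈ B i

/-- The points `y ≠ x` such that the line through `x` and `y` has fewer than `n + 1` points. -/
def short (n : ℕ) {v : ℕ} (B : Fin v → Finset (Fin v)) (x : Fin v) : Finset (Fin v) :=
  univ.filter fun y => y ≠ x ∧ (line B x y).card < n + 1

theorem desL_of {v k l n : ℕ} {B : Fin v → Finset (Fin v)} (h : IsSymmetricDesign v k l B)
    (hkv : k < v) (hn : 2 ≤ n) (hl : 2 ≤ l) (hk : k = n * l + 1) :
    Pool.Agent.N337.MJ.DesL n l B :=
  Pool.Agent.N337.MJ.desL_of (Fintype.card_fin v) (Fintype.card_fin v) h.size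
    (fun x y hxy => by rw [← h.pair x y hxy, Fintype.card_subtype]) hkv hn hl hk

theorem short_eq {v n l : ℕ} {B : Fin v → Finset (Fin v)} (h : Pool.Agent.N337.MJ.DesL n l B)
    (x : Fin v) : short n B x = Pool.Agent.N337.MJ.bad n B x :=
  Pool.Agent.N337.MJ.bad_eq_of h (line B) (fun x y z => by simp [line]) (short n B)
    (fun x y => by simp [short]) x

/-- **Theorem.** (1) Let `B` be a symmetric `(v, k, l)`-design with `l ≥ 2` and `k = n * l + 1`,
`n ≥ 2`. Either no line is short, `n` is a prime power and `l = 1 + n + ... + n ^ (m - 1)`, or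
* at most `n ^ (3/2) * l` points (fewer than `l`, if `l` is not of the form
  `1 + n + ... + n ^ (m - 1)`) are on no short line, and
* every other point is joined to at least `n * (n + 2)` points by short lines, and to at least
  `2 * n ^ 2` points if `l = n + 1` (dimension three), so that the number of the ordered pairs of
  points on short lines is at least `n * (n + 2) * (v - n ^ (3/2) * l)`, and at least
  `2 * n ^ 2 * (v - n ^ (3/2) * l)` if `l = n + 1`.

(2) For every prime power `q` there is a symmetric design with the parameters of the projective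
space of dimension three and order `q`, with exactly `2 * (q ^ 5 + q ^ 4)` ordered pairs of points on
short lines, and with a point joined to exactly `2 * q ^ 2` points by short lines. -/
theorem result :
    (∀ (v k l n : ℕ) (B : Fin v → Finset (Fin v)), IsSymmetricDesign v k l B → k < v →
      2 ≤ n → 2 ≤ l → k = n * l + 1 →
      (IsPrimePow n ∧ (∃ m, 2 ≤ m ∧ l = ∑ i ∈ range m, n ^ i) ∧ ∀ x, short n B x = ∅) ∨
      (((univ.filter fun x => short n B x = ∅).card : ℝ) ≤ (n : ℝ) ^ (3 / 2 : ℝ) * (l : ℝ) ∧
        ((∀ m, l ≠ ∑ i ∈ range m, n ^ i) → (univ.filter fun x => short n B x = ∅).card < l) ∧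
        (∀ x, short n B x ≠ ∅ → n * (n + 2) ≤ (short n B x).card ∧
          (l = n + 1 → 2 * n ^ 2 ≤ (short n B x).card)) ∧
        ((n * (n + 2) : ℕ) : ℝ) * ((v : ℝ) - (n : ℝ) ^ (3 / 2 : ℝ) * (l : ℝ)) ≤
          ((∑ x, (short n B x).card : ℕ) : ℝ) ∧
        (l = n + 1 → ((2 * n ^ 2 : ℕ) : ℝ) * ((v : ℝ) - (n : ℝ) ^ (3 / 2 : ℝ) * (l : ℝ)) ≤
          ((∑ x, (short n B x).card : ℕ) : ℝ)))) ∧
    ∀ q : ℕ, IsPrimePow q → ∃ (v : ℕ) (B : Fin v → Finset (Fin v)),
      v = q ^ 3 + q ^ 2 + q + 1 ∧ IsSymmetricDesign v (q ^ 2 + q + 1) (q + 1) B ∧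
      (∃ x, (short q B x).card = 2 * q ^ 2) ∧ ∑ x, (short q B x).card = 2 * (q ^ 5 + q ^ 4) := by
  classical
  constructor
  · intro v k l n B h hkv hn hl hk
    have hL := desL_of h hkv hn hl hk
    have hs : ∀ x, short n B x = Pool.Agent.N337.MJ.bad n B x := short_eq hL
    simp only [hs]
    rcases Pool.Agent.N337.MJ.dichotomy hL hl with ⟨h1, ⟨m, hm, hm'⟩, h2⟩ | ⟨h1, h2, h3, h4, h5⟩
    · exact Or.inl ⟨h1, ⟨m, hm, hm'⟩, h2⟩
    · rw [Fintype.card_fin] at h4 h5
      refine Or.inr ⟨?_, fun hno => ?_, h3, h4, h5⟩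
      · convert h1
      · convert h2 hno
  · intro q hq
    obtain ⟨v, B, hv, hB, ⟨u, hu⟩, hsum⟩ :=
      Pool.Agent.N337.MJ.examples Pool.Agent.N337.MJ.exKan q hq
    have hL := hB.toL
    have hs : ∀ x, short q B x = Pool.Agent.N337.MJ.bad q B x := short_eq hL
    refine ⟨v, B, hv, ⟨fun i => ?_, fun x y hxy => ?_⟩, ⟨u, by rw [hs, hu]⟩, by simp only [hs, hsum]⟩
    · rw [hL.size, Pool.Agent.N337.MJ.th_succ, Pool.Agent.N337.MJ.th_one]
      ring
    · have h1 := hL.pair x y hxy
      rw [Pool.Agent.N337.MJ.th_succ, Pool.Agent.N337.MJ.th_one, mul_one] at h1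
      rw [← h1]
      congr 1
      ext i
      simp only [mem_filter]

end Pool.Agent.Results.MP_3038d1_co.RobustDembowskiWagner
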