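import Mathlib
import Pool.Agent.N337.SD.Fin
import Pool.Agent.N337.SD.Gen
import Pool.Agent.N337.SD.Pl
import Pool.Agent.N337.SD.Ind
import Pool.Agent.N337.SD.PG
import Pool.Agent.N337.SD.Sw


set_option autoImplicit false

/-!
# The switching distance of symmetric designs

How many blocks must be changed to turn a symmetric design into another one (on the same points)?
-/

namespace Pool.Agent.Results.MP_3038d1_co.SwitchingDistance

open Finset Module
open scoped Classical LinearAlgebra.Projectivization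

/-- The set `𝓑` of `k`-subsets of the `v`-set `X` is (the set of blocks of) a symmetric
`(v, k, l)`-design: it has `v` members, and every two points are in exactly `l` of them. -/
structure IsSymmetricDesign {X : Type} [Fintype X] (k l : ℕ) (𝓑 : Finset (Finset X)) : Prop where
  card_blocks : 𝓑.card = Fintype.card X
  size : ∀ b ∈ 𝓑, b.card = k
  pair : ∀ x y : X, x ≠ y → (𝓑.filter fun b => x ∈ b ∧ y ∈ b).card = l

noncomputable instance instPoints (F : Type) [Field F] [Fintype F] (d : ℕ) :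
    Fintype (ℙ F (Fin (d + 1) → F)) := Fintype.ofFinite _

noncomputable instance instSubspaces (F : Type) [Field F] [Fintype F] (d : ℕ) :
    Fintype (Submodule F (Fin (d + 1) → F)) := Fintype.ofFinite _

/-- The hyperplanes of the projective space `PG(d, F)` as sets of points. -/
noncomputable def hyperplanes (F : Type) [Field F] [Fintype F] (d : ℕ) :
    Finset (Finset (ℙ F (Fin (d + 1) → F))) :=
  (univ.filter fun H : Submodule F (Fin (d + 1) → F) => finrank F H = d).image fun H =>
    univ.filter fun x : ℙ F (Fin (d + 1) → F) => x.submodule ≤ H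

theorem hyperplanes_eq (F : Type) [Field F] [Fintype F] (d : ℕ) :
    hyperplanes F d = Pool.Agent.N337.SD.hyp F d := by
  unfold hyperplanes Pool.Agent.N337.SD.hyp
  congr!

theorem isSymm_iff {X : Type} [Fintype X] {k l : ℕ} {𝓑 : Finset (Finset X)} :
    IsSymmetricDesign k l 𝓑 ↔ Pool.Agent.N337.SD.IsSymm k l 𝓑 :=
  ⟨fun h => ⟨h.card_blocks, h.size, h.pair⟩, fun h => ⟨h.card_blocks, h.size, h.pair⟩⟩

/-- **Theorem.** (1) Two different symmetric `(v, k, l)`-designs `𝓑`, `𝓑'` on the same point set,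
`l ≥ 1`, `k < v`, differ in at least `1 + k / l` blocks: `k + l ≤ l * |𝓑 \ 𝓑'|`.

(2) Let `d ≥ 3` and let `𝓑` be a symmetric design on the points of `PG(d, F)`, `|F| = q`, with the
parameters of the design of points and hyperplanes. If `𝓑` is not the set of all hyperplanes, then
at least `2 q` hyperplanes are not blocks of `𝓑`.

(3) For every `d ≥ 3` and `F` there is such a `𝓑` containing all but exactly `2 q` hyperplanes. -/
theorem result :
    (∀ {X : Type} [Fintype X] (k l : ℕ) (𝓑 𝓑' : Finset (Finset X)),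
      IsSymmetricDesign k l 𝓑 → IsSymmetricDesign k l 𝓑' → 1 ≤ l → k < Fintype.card X → 𝓑 ≠ 𝓑' →
        k + l ≤ l * (𝓑 \ 𝓑').card) ∧
    (∀ (F : Type) [Field F] [Fintype F] (d : ℕ), 3 ≤ d →
      (∀ 𝓑 : Finset (Finset (ℙ F (Fin (d + 1) → F))),
        IsSymmetricDesign (∑ i ∈ range d, Fintype.card F ^ i)
          (∑ i ∈ range (d - 1), Fintype.card F ^ i) 𝓑 →
        𝓑 ≠ hyperplanes F d → 2 * Fintype.card F ≤ (hyperplanes F d \ 𝓑).card) ∧
      (∃ 𝓑 : Finset (Finset (ℙ F (Fin (d + 1) → F))),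
        IsSymmetricDesign (∑ i ∈ range d, Fintype.card F ^ i)
          (∑ i ∈ range (d - 1), Fintype.card F ^ i) 𝓑 ∧
        (hyperplanes F d \ 𝓑).card = 2 * Fintype.card F)) := by
  refine ⟨fun k l 𝓑 𝓑' h h' => Pool.Agent.N337.SD.gen k l 𝓑 𝓑' (isSymm_iff.1 h) (isSymm_iff.1 h'),
    fun F _ _ d hd => ⟨fun 𝓑 h hne => ?_, ?_⟩⟩
  · rw [hyperplanes_eq] at hne ⊢
    exact Pool.Agent.N337.SD.far Pool.Agent.N337.SD.gen Pool.Agent.N337.SD.ryser
      Pool.Agent.N337.SD.lem2 Pool.Agent.N337.SD.ind Pool.Agent.N337.SD.pg F d hd 𝓑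
      (isSymm_iff.1 h) hne
  · obtain ⟨𝓑, h1, h2⟩ := Pool.Agent.N337.SD.sw F d hd
    exact ⟨𝓑, isSymm_iff.2 h1, by rw [hyperplanes_eq]; exact h2⟩

end Pool.Agent.Results.MP_3038d1_co.SwitchingDistance
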