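import Mathlib
import Pool.Agent.N345.SDP.Main

set_option autoImplicit false

/-!
# Symmetric designs in which most triples of blocks have the symmetric difference property

If the symmetric difference of three blocks is a block or the complement of a block for all but
fewer than `v ^ 3 / 64` ordered triples of blocks of a symmetric `2-(v, k, lam)` design, then `v`
is a power of four and the parameters are those of the designs with the symmetric difference
property, or `v + 1` is a power of two and the parameters are those of the hyperplanes of a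
projective space over the field with two elements, or of the complementary design.
-/

namespace Pool.Agent.Results.MP_3038d1_co.SymmetricDifferenceGap

open Finset

/-- The blocks `B i` (`i : Fin v`) form a symmetric `2-(v, k, lam)` design on the points `Fin v`
with `2 ≤ k < v`. -/
structure IsSymmetricDesign (v k lam : ℕ) (B : Fin v → Finset (Fin v)) : Prop where
  two_le : 2 ≤ k
  lt : k < v
  size : ∀ i, (B i).card = k
  pair : ∀ x y : Fin v, x ≠ y →
    (Finset.univ.filter (fun i => x ∈ B i ∧ y ∈ B i)).card = lam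

/-- The symmetric difference of the blocks `B i`, `B j`, `B l` is a block or the complement of a
block. -/
def HasSDP {v : ℕ} (B : Fin v → Finset (Fin v)) (i j l : Fin v) : Prop :=
  ∃ m, symmDiff (symmDiff (B i) (B j)) (B l) = B m ∨
    symmDiff (symmDiff (B i) (B j)) (B l) = (B m)ᶜ

open scoped Classical in
/-- Let `B` be a symmetric `2-(v, k, lam)` design, `lam ≥ 1`, in which fewer than `v ^ 3 / 64` of
the ordered triples of blocks do not have the symmetric difference property. Then for some `m`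
`(v, k, lam)` is one of `(4 ^ (m + 1), 2 * 4 ^ m + 2 ^ m, 4 ^ m + 2 ^ m)`,
`(4 ^ (m + 1), 2 * 4 ^ m - 2 ^ m, 4 ^ m - 2 ^ m)`, `(4 * 2 ^ m - 1, 2 * 2 ^ m - 1, 2 ^ m - 1)`,
`(4 * 2 ^ m - 1, 2 * 2 ^ m, 2 ^ m)`. -/
theorem result (v k lam : ℕ) (B : Fin v → Finset (Fin v)) (hB : IsSymmetricDesign v k lam B)
    (hlam : 1 ≤ lam)
    (h : 64 * (univ.filter fun t : Fin v × Fin v × Fin v => ¬ HasSDP B t.1 t.2.1 t.2.2).card <
      v ^ 3) :
    ∃ m : ℕ,
      (v = 4 ^ (m + 1) ∧ k = 2 * 4 ^ m + 2 ^ m ∧ lam = 4 ^ m + 2 ^ m) ∨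
      (v = 4 ^ (m + 1) ∧ k = 2 * 4 ^ m - 2 ^ m ∧ lam = 4 ^ m - 2 ^ m) ∨
      (v = 4 * 2 ^ m - 1 ∧ k = 2 * 2 ^ m - 1 ∧ lam = 2 ^ m - 1) ∨
      (v = 4 * 2 ^ m - 1 ∧ k = 2 * 2 ^ m ∧ lam = 2 ^ m) := by
  have hd : Pool.Agent.N345.Sym.Des v k lam B := ⟨hB.two_le, hB.lt, hB.size, hB.pair⟩
  have e1 : ∀ s t : Finset (Fin v), Pool.Agent.N345.SDP.ind (symmDiff s t) =
      Pool.Agent.N345.SDP.ind s + Pool.Agent.N345.SDP.ind t := by
    intro s t
    funext x
    simp only [Pool.Agent.N345.SDP.ind, Pi.add_apply, mem_symmDiff]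
    by_cases h1 : x ∈ s <;> by_cases h2 : x ∈ t <;> simp [h1, h2]
    decide
  have e2 : ∀ s : Finset (Fin v), Pool.Agent.N345.SDP.ind sᶜ = Pool.Agent.N345.SDP.ind s + 1 := by
    intro s
    funext x
    simp only [Pool.Agent.N345.SDP.ind, Pi.add_apply, mem_compl, Pi.one_apply]
    by_cases h1 : x ∈ s <;> simp [h1]
    decide
  have e3 : ∀ i j l : Fin v, HasSDP B i j l ↔ Pool.Agent.N345.SDP.ind (B i) +
      Pool.Agent.N345.SDP.ind (B j) + Pool.Agent.N345.SDP.ind (B l) ∈
        Pool.Agent.N345.SDP.T B := by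
    intro i j l
    rw [Pool.Agent.N345.SDP.mem_T, ← e1, ← e1]
    constructor
    · rintro ⟨m, hm | hm⟩
      · exact ⟨m, Or.inl (by rw [hm])⟩
      · exact ⟨m, Or.inr (by rw [hm, e2])⟩
    · rintro ⟨m, hm | hm⟩
      · exact ⟨m, Or.inl (Pool.Agent.N345.SDP.ind_inj hm)⟩
      · rw [← e2] at hm
        exact ⟨m, Or.inr (Pool.Agent.N345.SDP.ind_inj hm)⟩
  have e4 : (univ.filter fun t : Fin v × Fin v × Fin v => ¬ HasSDP B t.1 t.2.1 t.2.2).card =
      ∑ i, ∑ j, ∑ l, (if Pool.Agent.N345.SDP.ind (B i) + Pool.Agent.N345.SDP.ind (B j) +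
        Pool.Agent.N345.SDP.ind (B l) ∉ Pool.Agent.N345.SDP.T B then 1 else 0) := by
    rw [card_filter, Fintype.sum_prod_type]
    refine sum_congr rfl fun i _ => ?_
    rw [Fintype.sum_prod_type]
    refine sum_congr rfl fun j _ => sum_congr rfl fun l _ => ?_
    simp only [e3]
  rw [e4] at h
  obtain ⟨m, hm⟩ := Pool.Agent.N345.SDP.main hd hlam h
  refine ⟨m, ?_⟩
  rcases hm with h1 | h1 | h1 | h1
  · exact Or.inl h1
  · right; left
    omega
  · right; right; left
    omega
  · right; right; right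
    omega

end Pool.Agent.Results.MP_3038d1_co.SymmetricDifferenceGap
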